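import Mathlib
import Pool.Agent.TH410.KV.CubCrit

set_option autoImplicit false
set_option linter.unusedSectionVars false

/-!
# The signed number of invariant graphs if the differences of the prime blocks form one class

MP_257582_lc: helper file for `SmallSubgraphs`.
-/

namespace Run7.h972.Small

open Finset Pool.Agent.H98R2.Ev Pool.Agent.H98R2.Nb Pool.Agent.TH410.KV

variable {𝓕 : Pool.Agent.TH410.KV.Fam}

section Count

/-- the circulant graph with all differences is complete -/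
theorem cg_all {l : ℕ} [Fact l.Prime] (w : (ZMod l)ˣ) (T : Finset (Om l w)) (hT : ∀ x, x ∈ T)
    (u v : ZMod l) (huv : u ≠ v) : (cg w T).Adj u v := by
  refine ⟨huv, Units.mk0 (v - u) (sub_ne_zero.2 huv.symm), ?_, hT _⟩
  rw [Units.val_mk0]
  ring

/-- the classes of differences if `w` and `-1` generate the units -/
theorem om_subsingleton {l : ℕ} (w : (ZMod l)ˣ)
    (hw : Subgroup.closure {w, (-1 : (ZMod l)ˣ)} = ⊤) : Subsingleton (Om l w) :=
  QuotientGroup.subsingleton_iff.2 hw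

variable {I J' : Type} {F : I → Type} [∀ i, Field (F i)] {ℓ : J' → ℕ}
  [DecidableEq I] [DecidableEq J'] [Fintype I] [Fintype J'] [∀ j, Fact (ℓ j).Prime]

theorem has_of_nonempty {b : ℕ} (hb : ∀ H : 𝓕, H.1.1 ≤ b) (h𝓕 : 𝓕.Nonempty)
    (hℓ : ∀ j, b ≤ ℓ j) (w : ∀ j, (ZMod (ℓ j))ˣ)
    (hw : ∀ j, Subgroup.closure {w j, (-1 : (ZMod (ℓ j))ˣ)} = ⊤) (S : Finset (EV (I ⊕ J')))
    (T : ∀ j, Finset (Om (ℓ j) (w j))) (j : J') (hj : (T j).Nonempty) :
    Has 𝓕 (gg (F := F) w S T) := by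
  obtain ⟨H, hH⟩ := h𝓕
  obtain ⟨t, ht⟩ := hj
  have hsub := om_subsingleton (w j) (hw j)
  have hall : ∀ x, x ∈ T j := fun x => by rw [Subsingleton.elim x t]; exact ht
  have hle : H.1 ≤ ℓ j := (hb ⟨H, hH⟩).trans (hℓ j)
  let f : Fin H.1 → ZMod (ℓ j) := fun x => ((x : ℕ) : ZMod (ℓ j))
  have hf : Function.Injective f := by
    intro x y hxy
    have h1 := (ZMod.natCast_eq_natCast_iff' _ _ _).1 hxy
    rw [Nat.mod_eq_of_lt (lt_of_lt_of_le x.2 hle), Nat.mod_eq_of_lt (lt_of_lt_of_le y.2 hle)] at h1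
    exact Fin.ext h1
  refine ⟨H, hH, ⟨⟨⟨fun x => Sum.inr ⟨j, f x⟩, ?_⟩, ?_⟩⟩⟩
  · intro x y hxy
    exact Or.inr ⟨j, f x, f y, rfl, rfl, cg_all _ _ hall _ _ (fun h => hxy.ne (hf h))⟩
  · intro x y hxy
    have h1 : (⟨j, f x⟩ : Σ j : J', ZMod (ℓ j)) = ⟨j, f y⟩ := Sum.inr_injective hxy
    rw [Sigma.mk.injEq] at h1
    exact hf (eq_of_heq h1.2)

theorem has_iff {b : ℕ} (hb : ∀ H : 𝓕, H.1.1 ≤ b) (hF : ∀ i, Nonempty (Fin b ↪ F i))
    (hℓ : ∀ j, b ≤ ℓ j) (w : ∀ j, (ZMod (ℓ j))ˣ) (S : Finset (EV (I ⊕ J'))) :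
    Has 𝓕 (gg (F := F) w S (fun _ => ∅)) ↔ Bad (fun _ : I ⊕ J' => (xi : TY 𝓕)) (toG S) := by
  classical
  constructor
  · rintro ⟨H, hH, ⟨f⟩⟩
    refine ⟨⟨H, hH⟩, fun x => blk (f x), fun v => ?_, fun x y hxy hne => ?_⟩
    · intro x hx y hy hxy
      have hx' : blk (f x) = v := by simpa only [mem_filter, mem_univ, true_and] using hx
      have hy' : blk (f y) = v := by simpa only [mem_filter, mem_univ, true_and] using hy
      rcases f.toHom.map_adj hxy with h | ⟨j, u, v', _, _, h3⟩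
      · change (toG S).Adj (blk (f x)) (blk (f y)) at h
        rw [hx', hy'] at h
        exact (toG S).loopless.irrefl _ h
      · obtain ⟨_, d, _, h4⟩ := h3
        exact absurd h4 (notMem_empty _)
    · rcases f.toHom.map_adj hxy with h | ⟨j, u, v', _, _, h3⟩
      · exact h
      · obtain ⟨_, d, _, h4⟩ := h3
        exact absurd h4 (notMem_empty _)
  · rintro ⟨⟨H, hH⟩, κ, h1, h2⟩
    have hφ : ∀ i, ∃ φ : Fin H.1 → F i, Function.Injective φ := by
      intro i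
      obtain ⟨e⟩ := hF i
      exact ⟨fun x => e (Fin.castLE (hb ⟨H, hH⟩) x),
        fun x y h => Fin.castLE_injective _ (e.injective h)⟩
    choose φ hφ using hφ
    have hψ : ∀ j, ∃ ψ : Fin H.1 → ZMod (ℓ j), Function.Injective ψ := by
      intro j
      have hle : H.1 ≤ ℓ j := (hb ⟨H, hH⟩).trans (hℓ j)
      refine ⟨fun x => ((x : ℕ) : ZMod (ℓ j)), fun x y hxy => ?_⟩
      have h1 := (ZMod.natCast_eq_natCast_iff' _ _ _).1 hxy
      rw [Nat.mod_eq_of_lt (lt_of_lt_of_le x.2 hle),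
        Nat.mod_eq_of_lt (lt_of_lt_of_le y.2 hle)] at h1
      exact Fin.ext h1
    choose ψ hψ using hψ
    let f : Fin H.1 → VB F ℓ := fun x =>
      (κ x).elim (fun i => Sum.inl ⟨i, φ i x⟩) (fun j => Sum.inr ⟨j, ψ j x⟩)
    have hf : ∀ x, blk (f x) = κ x := by
      intro x
      simp only [f]
      rcases κ x with i | j <;> rfl
    refine ⟨H, hH, ⟨⟨⟨f, ?_⟩, ?_⟩⟩⟩
    · intro x y hxy
      by_cases h : κ x = κ y
      · exfalso
        have h3 : _ ∈ (xi : TY 𝓕).1 ⟨H, hH⟩ := h1 (κ y)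
        exact h3 x (by simp [h]) y (by simp) hxy
      · refine Or.inl ?_
        rw [hf, hf]
        exact h2 x y hxy h
    · intro x y hxy
      change f x = f y at hxy
      have h : κ x = κ y := by rw [← hf x, ← hf y, hxy]
      simp only [f] at hxy
      rw [h] at hxy
      rcases hy : κ y with i | j
      · rw [hy] at hxy
        have h3 := Sum.inl_injective hxy
        rw [Sigma.mk.injEq] at h3
        exact hφ i (eq_of_heq h3.2)
      · rw [hy] at hxy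
        have h3 := Sum.inr_injective hxy
        rw [Sigma.mk.injEq] at h3
        exact hψ j (eq_of_heq h3.2)

open Classical in
theorem count_small (q : ℕ) [Fact q.Prime] {b : ℕ} (hb : ∀ H : 𝓕, H.1.1 ≤ b)
    (h𝓕 : 𝓕.Nonempty) (hF : ∀ i, Nonempty (Fin b ↪ F i)) (hℓ : ∀ j, b ≤ ℓ j)
    (w : ∀ j, (ZMod (ℓ j))ˣ) (hw : ∀ j, Subgroup.closure {w j, (-1 : (ZMod (ℓ j))ˣ)} = ⊤) :
    ((∑ A : Finset (Omg (I := I) w),
      (if ¬ Has 𝓕 (gA (F := F) w A) then (-1 : ℤ) ^ A.card else 0) : ℤ) : ZMod q) =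
    Lb 𝓕 q (cl q (xi : TY 𝓕) ^ (Fintype.card I + Fintype.card J')) := by
  have e1 : (∑ A : Finset (Omg (I := I) w),
        if ¬ Has 𝓕 (gA (F := F) w A) then (-1 : ℤ) ^ A.card else 0) =
      ∑ T : (∀ j, Finset (Om (ℓ j) (w j))), ∑ S : Finset (EV (I ⊕ J')),
        (if ¬ Has 𝓕 (gg (F := F) w S T) then (-1:ℤ) ^ S.card * ∏ j, (-1:ℤ) ^ (T j).card
          else 0) := by
    refine (Fintype.sum_congr _ _ (fun A => ?_)).trans
      (N8.reindex w (fun S T => ¬ Has 𝓕 (gg (F := F) w S T)))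
    by_cases h : Has 𝓕 (gA (F := F) w A)
    · have h' : Has 𝓕 (gg (F := F) w A.toLeft (comp w A.toRight)) := h
      rw [if_neg (by simpa using h), if_neg (by simpa using h')]
    · have h' : ¬ Has 𝓕 (gg (F := F) w A.toLeft (comp w A.toRight)) := h
      rw [if_pos h, if_pos h']
  have e2 : (∑ T : (∀ j, Finset (Om (ℓ j) (w j))), ∑ S : Finset (EV (I ⊕ J')),
        (if ¬ Has 𝓕 (gg (F := F) w S T) then (-1:ℤ) ^ S.card * ∏ j, (-1:ℤ) ^ (T j).card
          else 0)) = ∑ S : Finset (EV (I ⊕ J')),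
        (if ¬ Has 𝓕 (gg (F := F) w S (fun _ => ∅)) then (-1:ℤ) ^ S.card else 0) := by
    rw [Finset.sum_eq_single (fun _ => (∅ : Finset _))]
    · refine Finset.sum_congr rfl fun S _ => ?_
      simp only [card_empty, pow_zero, prod_const_one, mul_one]
    · intro T _ hT
      refine Finset.sum_eq_zero fun S _ => ?_
      have hex : ∃ j, (T j).Nonempty := by
        by_contra hcon
        push Not at hcon
        exact hT (funext fun j => hcon j)
      obtain ⟨j, hj⟩ := hex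
      rw [if_neg (not_not.2 (has_of_nonempty hb h𝓕 hℓ w hw S T j hj))]
    · intro h
      exact absurd (mem_univ _) h
  rw [e1, e2]
  have e3 : cl q (xi : TY 𝓕) ^ (Fintype.card I + Fintype.card J') =
      ∏ v : I ⊕ J', cl q ((fun _ => (xi : TY 𝓕)) v) := by
    rw [prod_const, card_univ, Fintype.card_sum]
  rw [e3, Lb_prod, Int.cast_sum]
  unfold NN
  refine Fintype.sum_congr _ _ fun S => ?_
  have h := has_iff hb hF hℓ w S
  unfold ind
  by_cases h1 : Has 𝓕 (gg (F := F) w S (fun _ => ∅))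
  · rw [if_neg (not_not.2 h1), if_pos (h.1 h1)]
    simp
  · rw [if_pos h1, if_neg (fun h2 => h1 (h.2 h2))]
    push_cast
    ring

end Count

section Value

/-- the values of the functional on the images of the block under powers of Frobenius -/
theorem value_aux (q : ℕ) [Fact q.Prime] (hq : q = 2 ∨ q = 3) [CharP (AA 𝓕 q) q] (m : ℕ)
    (h0 : ∀ H : 𝓕, ¬ H.1.2.Colorable (q ^ m)) (H₁ : 𝓕) (h1 : H₁.1.2.Colorable (q ^ (m + 1)))
    (n : ℕ) : ∀ i, (n + 1 + i ≤ m → Lb 𝓕 q ((Ph q ^ (n + 1)) ((De q ^ i) (cl q (xi : TY 𝓕)))) = 0) ∧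
      (n + 1 + i = m + 1 →
        Lb 𝓕 q ((Ph q ^ (n + 1)) ((De q ^ i) (cl q (xi : TY 𝓕)))) = (-1) ^ n) := by
  have hne : NeZero q := ⟨(Fact.out : q.Prime).ne_zero⟩
  have hstep : ∀ (k i : ℕ), (Ph q ^ (k + 1)) ((De q ^ i) (cl q (xi : TY 𝓕))) =
      (Ph q ^ k) ((De q ^ i) (cl q (xi : TY 𝓕))) -
        (Ph q ^ k) ((De q ^ (i + 1)) (cl q (xi : TY 𝓕))) := by
    intro k i
    have h2 : (De q ^ (i + 1)) (cl q (xi : TY 𝓕)) =
        (De q ^ i) (cl q (xi : TY 𝓕)) - Ph q ((De q ^ i) (cl q (xi : TY 𝓕))) := by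
      rw [pow_succ', Module.End.mul_apply]
      rfl
    rw [h2, map_sub, sub_sub_cancel, pow_succ, Module.End.mul_apply]
  have hval : ∀ i, i ≤ m → Lb 𝓕 q ((De q ^ i) (cl q (xi : TY 𝓕))) = 1 := by
    intro i hi
    rw [De_cl q hq]
    refine Lb_cl q _ fun H hH => ?_
    exact h0 H (((xi_iter q i H).1 hH).mono
      (Nat.pow_le_pow_right (Fact.out : q.Prime).pos hi))
  have hzero : Lb 𝓕 q ((De q ^ (m + 1)) (cl q (xi : TY 𝓕))) = 0 := by
    rw [De_cl q hq, cl_zero q _ H₁ ((xi_iter q (m + 1) H₁).2 h1), map_zero]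
  induction n with
  | zero =>
    intro i
    rw [hstep, map_sub, pow_zero, Module.End.one_apply, Module.End.one_apply]
    constructor
    · intro hi
      rw [hval i (by omega), hval (i + 1) (by omega), sub_self]
    · intro hi
      have : i = m := by omega
      subst this
      rw [hval i le_rfl, hzero, sub_zero, pow_zero]
  | succ n ih =>
    intro i
    rw [hstep, map_sub]
    constructor
    · intro hi
      rw [(ih i).1 (by omega), (ih (i + 1)).1 (by omega), sub_self]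
    · intro hi
      rw [(ih i).1 (by omega), (ih (i + 1)).2 (by omega), zero_sub, pow_succ]
      ring

theorem value (q : ℕ) [Fact q.Prime] (hq : q = 2 ∨ q = 3) [CharP (AA 𝓕 q) q] (m : ℕ)
    (h0 : ∀ H : 𝓕, ¬ H.1.2.Colorable (q ^ m)) (H₁ : 𝓕) (h1 : H₁.1.2.Colorable (q ^ (m + 1))) :
    Lb 𝓕 q (cl q (xi : TY 𝓕) ^ (q ^ (m + 1))) = (-1) ^ m := by
  have h2 := (value_aux q hq m h0 H₁ h1 m 0).2 (by omega)
  rwa [pow_zero, Module.End.one_apply, Ph_pow] at h2

/-- periodicity of the powers of the class of a block -/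
theorem period (q : ℕ) [Fact q.Prime] (hq : q = 2 ∨ q = 3) [CharP (AA 𝓕 q) q] (m e : ℕ)
    (H₁ : 𝓕) (h1 : H₁.1.2.Colorable (q ^ (m + 1))) (he : m + 1 ≤ q ^ e) (M : ℕ) (hM : 1 ≤ M)
    (j : ℕ) : cl q (xi : TY 𝓕) ^ (M + j * (q ^ (q ^ e) - 1)) = cl q (xi : TY 𝓕) ^ M := by
  have hne : NeZero q := ⟨(Fact.out : q.Prime).ne_zero⟩
  have hDe : (De q ^ (m + 1)) (cl q (xi : TY 𝓕)) = 0 := by
    rw [De_cl q hq]
    exact cl_zero q _ H₁ ((xi_iter q (m + 1) H₁).2 h1)
  exact pow_add_period (Nat.one_le_pow _ _ (Fact.out : q.Prime).pos) (pow_period q hDe he) M hM j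

end Value

end Run7.h972.Small
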