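import Mathlib
import Pool.Agent.TH410.KV.CubNum
import Pool.Agent.Run7.h972.Small.Cnt

set_option autoImplicit false
set_option linter.unusedSectionVars false

/-!
# The contradiction for one number of vertices

MP_257582_lc: helper file for `SmallSubgraphs`. The vertex set is cut into fields of orders `2 ^ c`
and `2 ^ (c + 1)` and blocks `ZMod ℓ` with primes `ℓ = 2 * 3 ^ a + 1`.
-/

namespace Run7.h972.Small

open Finset Pool.Agent.H98R2.Ev Pool.Agent.H98R2.Nb Pool.Agent.TH410.KV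

/-- an element of order `3 ^ a` and `-1` generate the units modulo the prime `2 * 3 ^ a + 1` -/
theorem closure_top {l a : ℕ} [Fact l.Prime] (hl : l = 2 * 3 ^ a + 1) (w : (ZMod l)ˣ)
    (hw : orderOf w = 3 ^ a) : Subgroup.closure {w, (-1 : (ZMod l)ˣ)} = ⊤ := by
  set K := Subgroup.closure {w, (-1 : (ZMod l)ˣ)} with hK
  have hlp : l.Prime := Fact.out
  have h3 : 1 ≤ 3 ^ a := Nat.one_le_pow _ _ (by norm_num)
  have hcard : Nat.card (ZMod l)ˣ = 2 * 3 ^ a := by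
    rw [Nat.card_eq_fintype_card, ZMod.card_units_eq_totient, Nat.totient_prime hlp, hl]
    omega
  have hwK : w ∈ K := Subgroup.subset_closure (by simp)
  have hnK : (-1 : (ZMod l)ˣ) ∈ K := Subgroup.subset_closure (by simp)
  have h1 : 3 ^ a ∣ Nat.card K := by
    rw [← hw]
    exact Subgroup.orderOf_dvd_natCard K hwK
  have hl2 : Fact (2 < l) := ⟨by omega⟩
  have hne : (-1 : (ZMod l)ˣ) ≠ 1 := by
    intro h
    have h4 : ((-1 : (ZMod l)ˣ) : ZMod l) = ((1 : (ZMod l)ˣ) : ZMod l) := by rw [h]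
    rw [Units.val_neg, Units.val_one] at h4
    exact ZMod.neg_one_ne_one h4
  have h2 : 2 ∣ Nat.card K := by
    have h5 : orderOf (-1 : (ZMod l)ˣ) = 2 :=
      orderOf_eq_prime (by rw [neg_one_sq]) hne
    rw [← h5]
    exact Subgroup.orderOf_dvd_natCard K hnK
  have hcop : Nat.Coprime 2 (3 ^ a) := Nat.Coprime.pow_right a (by norm_num)
  have h6 : 2 * 3 ^ a ∣ Nat.card K := hcop.mul_dvd_of_dvd_of_dvd h2 h1
  apply Subgroup.eq_top_of_le_card
  rw [hcard]
  exact Nat.le_of_dvd Nat.card_pos h6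

/-- the contradiction for one number of vertices -/
theorem no_ne {b : ℕ} {𝓕 : Pool.Agent.TH410.KV.Fam} (hb : ∀ H : 𝓕, H.1.1 ≤ b) (m : ℕ)
    (h0 : ∀ H : 𝓕, ¬ H.1.2.Colorable (3 ^ m)) (H₁ : 𝓕) (h1 : H₁.1.2.Colorable (3 ^ (m + 1)))
    (e : ℕ) (he : m + 1 ≤ 3 ^ e) (c : ℕ) (hc : 1 ≤ c) (hbc : b ≤ 2 ^ c) (k : ℕ)
    (ℓ : Fin k → ℕ) [∀ j, Fact (ℓ j).Prime] (hinj : Function.Injective ℓ)
    (hℓc : ∀ j, 2 ^ (c + 1) < ℓ j) (ex : Fin k → ℕ) (hex : ∀ j, ℓ j = 2 * 3 ^ (ex j) + 1)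
    (M j₀ M₂ : ℕ) (hM₂ : M₂ ≤ M) (hMk : M + k = 3 ^ (m + 1) + j₀ * (3 ^ (3 ^ e) - 1))
    (n : ℕ) (hn : n = 2 ^ c * (M + M₂) + ∑ j, ℓ j)
    (hne : NE (univ : Finset (EV (Fin n))) (fun S => ¬ Has 𝓕 (toG S))) : False := by
  classical
  have hp2 : Fact (Nat.Prime 2) := ⟨Nat.prime_two⟩
  have hp3 : Fact (Nat.Prime 3) := ⟨Nat.prime_three⟩
  let F : Fin M → Type := fun i => GaloisField 2 (c + (if (i : ℕ) < M₂ then 1 else 0))
  have hfin : ∀ i, Fintype (F i) := fun i => Fintype.ofFinite _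
  have hFcard : ∀ i, Nat.card (F i) = 2 ^ (c + (if (i : ℕ) < M₂ then 1 else 0)) := by
    intro i
    exact GaloisField.card 2 _ (by omega)
  have hFcard' : ∀ i, Nat.card (F i) = 2 ^ c ∨ Nat.card (F i) = 2 ^ (c + 1) := by
    intro i
    rw [hFcard]
    split_ifs
    · exact Or.inr rfl
    · exact Or.inl rfl
  have hFb : ∀ i, b ≤ Nat.card (F i) := by
    intro i
    rcases hFcard' i with h | h <;> rw [h]
    · exact hbc
    · exact hbc.trans (Nat.pow_le_pow_right (by norm_num) (Nat.le_succ c))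
  have hemb : ∀ i, Nonempty (Fin b ↪ F i) := by
    intro i
    apply Function.Embedding.nonempty_of_card_le
    rw [Fintype.card_fin, ← Nat.card_eq_fintype_card]
    exact hFb i
  have hcard : Fintype.card (Fin n) = Fintype.card (VB F ℓ) := by
    rw [Fintype.card_fin, Fintype.card_sum, Fintype.card_sigma, Fintype.card_sigma]
    simp only [ZMod.card]
    have hs := size_sum 2 c M M₂ (by norm_num) hM₂
    simp only [Nat.add_one_sub_one, one_mul] at hs
    rw [hn, ← hs]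
    congr 1
    refine Finset.sum_congr rfl fun i _ => ?_
    rw [← Nat.card_eq_fintype_card, hFcard]
  let E : Fin n ≃ VB F ℓ := Fintype.equivOfCardEq hcard
  have hNE2 := ne_map15 (ev15 E) _ _ hne
  rw [Finset.map_univ_equiv] at hNE2
  have hNE3 : NE (univ : Finset (EV (VB F ℓ))) (fun S => ¬ Has 𝓕 (toG S)) := by
    have h1 : (fun S : Finset (EV (VB F ℓ)) => ¬ Has 𝓕 (toG S)) =
        (fun S => ¬ Has 𝓕 (toG (S.map (ev15 E).symm.toEmbedding))) := by
      funext S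
      have h1 : toG (S.map (ev15 E).symm.toEmbedding) = (toG S).map E.symm.toEmbedding :=
        toG_map15 E.symm S
      rw [h1]
      apply propext
      rw [not_iff_not]
      exact ⟨fun h => Has.mono' h ⟨(SimpleGraph.Iso.map E.symm (toG S)).toCopy⟩,
        fun h => Has.mono' h ⟨(SimpleGraph.Iso.map E.symm (toG S)).symm.toCopy⟩⟩
    rw [h1]
    exact hNE2
  have hpc : 0 < 2 ^ c - 1 := by
    have h1 : 2 ^ 1 ≤ 2 ^ c := Nat.pow_le_pow_right (by norm_num) hc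
    omega
  have hpc1 : 2 ^ c ≤ 2 ^ (c + 1) := Nat.pow_le_pow_right (by norm_num) (Nat.le_succ c)
  have hcop : ∀ j, Nat.Coprime ((2 ^ c - 1) * (2 ^ (c + 1) - 1)) (ℓ j) := by
    intro j
    have h1 := hℓc j
    have hpr : (ℓ j).Prime := Fact.out
    refine Nat.Coprime.mul_left ?_ ?_
    · rw [Nat.coprime_comm, hpr.coprime_iff_not_dvd]
      intro h
      have := Nat.le_of_dvd hpc h
      omega
    · rw [Nat.coprime_comm, hpr.coprime_iff_not_dvd]
      intro h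
      have := Nat.le_of_dvd (by omega) h
      omega
  have hw : ∀ j, ∃ w : (ZMod (ℓ j))ˣ, orderOf w = 3 ^ (ex j) := by
    intro j
    refine exists_order (ℓ j) (3 ^ (ex j)) ⟨2, ?_⟩
    rw [hex j, Nat.add_sub_cancel, mul_comm]
  choose w hw using hw
  set a := ∑ j, ex j with ha
  have hexa : ∀ j, ex j ≤ a := fun j => Finset.single_le_sum (f := ex) (by simp) (mem_univ j)
  have hcrit := crit_c (F := F) 2 3 a 𝓕 H₁.1 H₁.2
    (fun H hH h => h0 ⟨H, hH⟩ (h.mono (Nat.one_le_pow _ _ (by norm_num))))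
    (fun i => (hb H₁).trans (hFb i)) ((2 ^ c - 1) * (2 ^ (c + 1) - 1))
    (Nat.mul_pos hpc (by omega)) hcop
    (fun i => by
      rcases hFcard' i with h | h <;> rw [h]
      · exact Dvd.intro _ rfl
      · exact Dvd.intro_left _ rfl)
    hinj w (fun j => by
      rw [← orderOf_dvd_iff_pow_eq_one, hw j]
      exact pow_dvd_pow 3 (hexa j)) hNE3
  have hℓb : ∀ j, b ≤ ℓ j := fun j => (hbc.trans hpc1).trans (hℓc j).le
  have hcnt := count_small (F := F) 3 hb ⟨H₁.1, H₁.2⟩ hemb hℓb w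
    (fun j => closure_top (hex j) (w j) (hw j))
  rw [(ZMod.intCast_zmod_eq_zero_iff_dvd _ 3).2 hcrit] at hcnt
  have hX : ∀ H : 𝓕, univ ∉ (xi : TY 𝓕).1 H := by
    intro H hH
    have h2 : univ ∈ ((J 3)^[0] (xi : TY 𝓕)).1 H := hH
    rw [xi_iter, pow_zero] at h2
    exact h0 H (h2.mono (Nat.one_le_pow _ _ (by norm_num)))
  have hnt : Nontrivial (AA 𝓕 3) := nontrivial_AA 3 _ hX
  have hch : CharP (AA 𝓕 3) 3 := charP_AA 3
  rw [Fintype.card_fin, Fintype.card_fin, hMk,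
    period 3 (Or.inr rfl) m e H₁ h1 he (3 ^ (m + 1)) (Nat.one_le_pow _ _ (by norm_num)) j₀,
    value 3 (Or.inr rfl) m h0 H₁ h1] at hcnt
  have h7 : ((-1 : ZMod 3) ^ m) ≠ 0 := pow_ne_zero m (neg_ne_zero.2 one_ne_zero)
  exact h7 hcnt.symm

end Run7.h972.Small
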