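import Pool.Agent.Run7.h972.Small.Pw

set_option autoImplicit false

/-!
# All residues modulo `2 ^ 18` are sums of distinct primes `2 * 3 ^ k + 1`

MP_257582_lc: helper file for `SmallSubgraphs`.
-/

namespace Run7.h972.Small

/-- the numbers `2 * 3 ^ k + 1` -/
def pr (k : ℕ) : ℕ := 2 * 3 ^ k + 1

/-- exponents `k` for which `2 * 3 ^ k + 1` is prime -/
def js : List ℕ :=
  [16, 17, 30, 54, 57, 60, 65, 132, 180, 320, 696, 782, 822, 897, 1252, 1454, 4217, 5480, 6225,
    7842, 12096, 13782, 17720]

theorem pr_inj : Function.Injective pr := by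
  intro a b h
  unfold pr at h
  have h1 : 3 ^ a = 3 ^ b := by omega
  exact Nat.pow_right_injective (le_refl 2 |>.trans (by norm_num)) h1

theorem prime_of_chk' (k f a : ℕ) (hf : k < 2 ^ f) (h : chk (pr (k + 1)) f k a = true) :
    (pr (k + 1)).Prime := prime_of_chk k f a hf h

theorem js_nodup : js.Nodup := by decide

theorem js_ge : ∀ k ∈ js, 16 ≤ k := by decide

theorem js_le : ∀ k ∈ js, k ≤ 17720 := by decide

theorem p16 : (pr (15 + 1)).Prime := prime_of_chk' 15 4 2 (by norm_num) (by decide +kernel)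
theorem p17 : (pr (16 + 1)).Prime := prime_of_chk' 16 5 5 (by norm_num) (by decide +kernel)
theorem p30 : (pr (29 + 1)).Prime := prime_of_chk' 29 5 3 (by norm_num) (by decide +kernel)
theorem p54 : (pr (53 + 1)).Prime := prime_of_chk' 53 6 3 (by norm_num) (by decide +kernel)
theorem p57 : (pr (56 + 1)).Prime := prime_of_chk' 56 6 3 (by norm_num) (by decide +kernel)
theorem p60 : (pr (59 + 1)).Prime := prime_of_chk' 59 6 3 (by norm_num) (by decide +kernel)
theorem p65 : (pr (64 + 1)).Prime := prime_of_chk' 64 7 3 (by norm_num) (by decide +kernel)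
theorem p132 : (pr (131 + 1)).Prime := prime_of_chk' 131 8 3 (by norm_num) (by decide +kernel)
theorem p180 : (pr (179 + 1)).Prime := prime_of_chk' 179 8 5 (by norm_num) (by decide +kernel)
theorem p320 : (pr (319 + 1)).Prime := prime_of_chk' 319 9 2 (by norm_num) (by decide +kernel)
theorem p696 : (pr (695 + 1)).Prime := prime_of_chk' 695 10 3 (by norm_num) (by decide +kernel)
theorem p782 : (pr (781 + 1)).Prime := prime_of_chk' 781 10 2 (by norm_num) (by decide +kernel)
theorem p822 : (pr (821 + 1)).Prime := prime_of_chk' 821 10 3 (by norm_num) (by decide +kernel)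
theorem p897 : (pr (896 + 1)).Prime := prime_of_chk' 896 10 3 (by norm_num) (by decide +kernel)
theorem p1252 : (pr (1251 + 1)).Prime := prime_of_chk' 1251 11 2 (by norm_num) (by decide +kernel)
theorem p1454 : (pr (1453 + 1)).Prime := prime_of_chk' 1453 11 2 (by norm_num) (by decide +kernel)
theorem p4217 : (pr (4216 + 1)).Prime := prime_of_chk' 4216 13 3 (by norm_num) (by decide +kernel)
theorem p5480 : (pr (5479 + 1)).Prime := prime_of_chk' 5479 13 2 (by norm_num) (by decide +kernel)
theorem p6225 : (pr (6224 + 1)).Prime := prime_of_chk' 6224 13 11 (by norm_num) (by decide +kernel)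
theorem p7842 : (pr (7841 + 1)).Prime := prime_of_chk' 7841 13 3 (by norm_num) (by decide +kernel)
theorem p12096 : (pr (12095 + 1)).Prime := prime_of_chk' 12095 14 3 (by norm_num) (by decide +kernel)
theorem p13782 : (pr (13781 + 1)).Prime := prime_of_chk' 13781 14 3 (by norm_num) (by decide +kernel)
theorem p17720 : (pr (17719 + 1)).Prime := prime_of_chk' 17719 15 5 (by norm_num) (by decide +kernel)

theorem js_prime : ∀ k ∈ js, (pr k).Prime := by
  unfold js
  simp only [List.mem_cons, List.not_mem_nil, or_false, forall_eq_or_imp, forall_eq]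
  exact ⟨p16, p17, p30, p54, p57, p60, p65, p132, p180, p320, p696, p782, p822, p897, p1252,
    p1454, p4217, p5480, p6225, p7842, p12096, p13782, p17720⟩

/-- the residues modulo `c` that are coded by the bits of `M` or of its shift by `s` -/
def stp (c M s : ℕ) : ℕ := Nat.lor (Nat.lor M (Nat.shiftLeft M s % 2 ^ c)) (Nat.shiftRight M (c - s))

/-- the sums of sublists modulo `c` as bits -/
def rch (c : ℕ) : List ℕ → ℕ
  | [] => 1
  | k :: l => stp c (rch c l) (pr k % c)

theorem rch_spec (c : ℕ) (hc : 1 ≤ c) (l : List ℕ) : ∀ x, (rch c l).testBit x = true →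
    x < c ∧ ∃ l' : List ℕ, l'.Sublist l ∧ (l'.map pr).sum % c = x := by
  induction l with
  | nil =>
    intro x hx
    have h1 : x = 0 := by
      rw [rch, Nat.testBit_one_eq_true_iff_self_eq_zero] at hx
      exact hx
    subst h1
    exact ⟨by omega, [], List.Sublist.refl _, by simp⟩
  | cons k l ih =>
    intro x hx
    set s := pr k % c with hs
    have hsc : s < c := Nat.mod_lt _ hc
    have h1 : rch c (k :: l) = (rch c l ||| (rch c l <<< s) % 2 ^ c) ||| (rch c l >>> (c - s)) := rfl
    rw [h1, Nat.testBit_or, Nat.testBit_or, Bool.or_eq_true, Bool.or_eq_true] at hx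
    rcases hx with (hx | hx) | hx
    · obtain ⟨h2, l', h3, h4⟩ := ih x hx
      exact ⟨h2, l', h3.cons _, h4⟩
    · rw [Nat.testBit_mod_two_pow, Bool.and_eq_true, decide_eq_true_eq, Nat.testBit_shiftLeft,
        Bool.and_eq_true, decide_eq_true_eq] at hx
      obtain ⟨h2, h3, h4⟩ := hx
      obtain ⟨h5, l', h6, h7⟩ := ih _ h4
      refine ⟨h2, k :: l', h6.cons_cons _, ?_⟩
      rw [List.map_cons, List.sum_cons, Nat.add_mod, ← hs, h7]
      rw [show s + (x - s) = x by omega]
      exact Nat.mod_eq_of_lt h2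
    · rw [Nat.testBit_shiftRight] at hx
      obtain ⟨h5, l', h6, h7⟩ := ih _ hx
      refine ⟨by omega, k :: l', h6.cons_cons _, ?_⟩
      rw [List.map_cons, List.sum_cons, Nat.add_mod, ← hs, h7]
      rw [show s + (c - s + x) = x + c by omega, Nat.add_mod_right]
      exact Nat.mod_eq_of_lt (by omega)

/-- equality test -/
def eqchk (a b : ℕ) : Bool := Nat.beq a b

theorem eq_of_eqchk (a b : ℕ) (h : eqchk a b = true) : a = b := Nat.eq_of_beq_eq_true h

/-- comparison test -/
def lechk (a b : ℕ) : Bool := Nat.ble a b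

theorem le_of_lechk (a b : ℕ) (h : lechk a b = true) : a ≤ b := Nat.le_of_ble_eq_true h

theorem rch_all : eqchk (rch (2 ^ 18) js) (2 ^ (2 ^ 18) - 1) = true := by decide +kernel

/-- every residue modulo `2 ^ 18` is a sum of distinct primes from the list -/
theorem cover (r : ℕ) (hr : r < 2 ^ 18) :
    ∃ l : List ℕ, l.Sublist js ∧ (l.map pr).sum % 2 ^ 18 = r := by
  have h1 : rch (2 ^ 18) js = 2 ^ (2 ^ 18) - 1 := eq_of_eqchk _ _ rch_all
  have h2 : (rch (2 ^ 18) js).testBit r = true := by
    rw [h1, Nat.testBit_two_pow_sub_one]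
    exact decide_eq_true hr
  exact (rch_spec (2 ^ 18) (by norm_num) js r h2).2

theorem total_chk : lechk ((js.map pr).sum) (2 ^ 29000) = true := by decide +kernel

theorem total_le : (js.map pr).sum ≤ 2 ^ 29000 := le_of_lechk _ _ total_chk

end Run7.h972.Small
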