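import Mathlib
import Pool.Agent.H98R2.Ev.T3
import Pool.Agent.Run7.h972.Small.Core
import Pool.Agent.Run7.h972.Small.Cover

set_option autoImplicit false

/-!
# Monotone properties given by subgraphs with at most `2 ^ 18` vertices

MP_257582_lc: helper file for `SmallSubgraphs`.
-/

namespace Run7.h972.Small

open Finset Pool.Agent.H98R2.Ev Pool.Agent.H98R2.Nb Pool.Agent.TH410.KV

theorem big (n : ℕ) (hn : 2 ^ 30000 ≤ n) : 2 ^ 29000 + 2 ^ 100 ≤ n := by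
  have h1 : (2 : ℕ) ^ 30000 = 2 ^ 29000 * 2 ^ 1000 := by rw [← pow_add]
  have h2 : (2 : ℕ) ^ 100 ≤ 2 ^ 29000 := Nat.pow_le_pow_right (by norm_num) (by norm_num)
  have h3 : (2 : ℕ) ≤ 2 ^ 1000 := by
    calc (2 : ℕ) = 2 ^ 1 := (pow_one 2).symm
      _ ≤ 2 ^ 1000 := Nat.pow_le_pow_right (by norm_num) (by norm_num)
  calc 2 ^ 29000 + 2 ^ 100 ≤ 2 ^ 29000 + 2 ^ 29000 := Nat.add_le_add_left h2 _
    _ = 2 ^ 29000 * 2 := by ring
    _ ≤ 2 ^ 29000 * 2 ^ 1000 := Nat.mul_le_mul_left _ h3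
    _ = 2 ^ 30000 := h1.symm
    _ ≤ n := hn

/-- the form for families -/
theorem main_fam {n : ℕ} (hn : 2 ^ 30000 ≤ n) (𝓕 : Pool.Agent.TH410.KV.Fam)
    (hb : ∀ H : 𝓕, H.1.1 ≤ 2 ^ 18) (h𝓕 : 𝓕.Nonempty) (h0 : ∀ H : 𝓕, ¬ H.1.2.Colorable 1)
    (hne : NE (univ : Finset (EV (Fin n))) (fun S => ¬ Has 𝓕 (toG S))) : False := by
  classical
  obtain ⟨H₀, hH₀⟩ := h𝓕
  have hcol : (⟨H₀, hH₀⟩ : 𝓕).1.2.Colorable (3 ^ 12) := by
    have h1 := SimpleGraph.colorable_of_fintype (⟨H₀, hH₀⟩ : 𝓕).1.2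
    rw [Fintype.card_fin] at h1
    exact h1.mono ((hb ⟨H₀, hH₀⟩).trans (by norm_num))
  have hex : ∃ i, ∃ H : 𝓕, H.1.2.Colorable (3 ^ i) := ⟨12, ⟨H₀, hH₀⟩, hcol⟩
  have hi12 : Nat.find hex ≤ 12 := Nat.find_min' hex ⟨⟨H₀, hH₀⟩, hcol⟩
  have hi0 : Nat.find hex ≠ 0 := by
    intro h
    obtain ⟨H, hH⟩ := Nat.find_spec hex
    rw [h, pow_zero] at hH
    exact h0 H hH
  obtain ⟨m, hm⟩ := Nat.exists_eq_succ_of_ne_zero hi0
  obtain ⟨H₁, h1⟩ := Nat.find_spec hex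
  rw [hm] at h1
  have hmin : ∀ H : 𝓕, ¬ H.1.2.Colorable (3 ^ m) := by
    intro H hH
    exact Nat.find_min hex (by rw [hm]; exact Nat.lt_succ_self m) ⟨H, hH⟩
  have hm11 : m ≤ 11 := by omega
  obtain ⟨l, hl, hsum⟩ := cover (n % 2 ^ 18) (Nat.mod_lt _ (by norm_num))
  have hlt : ∀ k ∈ l, k ∈ js := fun k hk => hl.subset hk
  have hnd : l.Nodup := js_nodup.sublist hl
  have hlen : l.length ≤ 23 := hl.length_le
  obtain ⟨B, hB⟩ : ∃ B : ℕ, B = 2 ^ 29000 := ⟨_, rfl⟩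
  obtain ⟨A, hA⟩ : ∃ A : ℕ, A = (l.map pr).sum := ⟨_, rfl⟩
  have hAB : A ≤ B := by
    rw [hA, hB]
    exact ((hl.map pr).sum_le_sum (fun _ _ => Nat.zero_le _)).trans total_le
  have hBn : B + 2 ^ 100 ≤ n := by
    rw [hB]
    exact big n hn
  have hdvd : 2 ^ 18 ∣ n - A := by
    rw [← hA] at hsum
    exact (Nat.modEq_iff_dvd' (by omega)).1 hsum
  obtain ⟨R, hR⟩ := hdvd
  obtain ⟨Q, hQ⟩ : ∃ Q : ℕ, Q = 3 ^ (3 ^ 3) - 1 := ⟨_, rfl⟩
  have hQv : Q = 7625597484986 := by rw [hQ]; norm_num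
  have h3m : 3 ^ (m + 1) ≤ 3 ^ 12 := Nat.pow_le_pow_right (by norm_num) (by omega)
  obtain ⟨T, hT⟩ : ∃ T : ℕ, T = 3 ^ (m + 1) := ⟨_, rfl⟩
  rw [← hT] at h3m
  have hRbig : 2 * (1 * Q) + (T + Q - l.length) ≤ R := by
    have h5 : (2 : ℕ) ^ 100 = 1267650600228229401496703205376 := by norm_num
    have h6 : (3 : ℕ) ^ 12 = 531441 := by norm_num
    omega
  obtain ⟨M, j, M₂, hM1, hM2, hM3⟩ := choose_M 1 Q (T + Q - l.length) R le_rfl
    (by omega) (Nat.coprime_one_left Q) hRbig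
  have hP : ∀ i : Fin l.length, Fact (pr (l.get i)).Prime :=
    fun i => ⟨js_prime _ (hlt _ (l.get_mem i))⟩
  refine no_ne (b := 2 ^ 18) hb m hmin H₁ h1 3 (by omega) 18 (by norm_num) le_rfl l.length
    (fun i => pr (l.get i))
    (fun i j h => List.nodup_iff_injective_get.1 hnd (pr_inj h))
    (fun i => ?_) (fun i => l.get i) (fun i => rfl) M (j + 1) M₂ hM3 ?_ n ?_ hne
  · have h7 : 16 ≤ l.get i := js_ge _ (hlt _ (l.get_mem i))
    have h8 : 3 ^ 16 ≤ 3 ^ (l.get i) := Nat.pow_le_pow_right (by norm_num) h7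
    have h9 : (3 : ℕ) ^ 16 = 43046721 := by norm_num
    have h10 : (2 : ℕ) ^ (18 + 1) = 524288 := by norm_num
    change 2 ^ (18 + 1) < 2 * 3 ^ (l.get i) + 1
    omega
  · rw [← hT, ← hQ, hM1]
    have h11 : T + Q - l.length + j * Q + l.length = T + Q + j * Q := by omega
    rw [h11]
    ring
  · have h12 : ∑ i : Fin l.length, pr (l.get i) = A := by
      rw [hA]
      exact Fin.sum_univ_fun_getElem l pr
    rw [h12]
    have h13 : M + M₂ = R := by omega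
    rw [h13, ← hR]
    omega

theorem main {n : ℕ} (hn : 2 ^ 30000 ≤ n) (P : SimpleGraph (Fin n) → Prop)
    (hmono : ∀ G H : SimpleGraph (Fin n), G ≤ H → P G → P H)
    (hiso : ∀ (σ : Fin n ≃ Fin n) (G : SimpleGraph (Fin n)), P G → P (G.map σ.toEmbedding))
    (h1 : ∃ G : SimpleGraph (Fin n), P G) (h0 : ∃ G : SimpleGraph (Fin n), ¬ P G)
    (hsmall : ∀ G : SimpleGraph (Fin n), P G → ∃ H ≤ G, P H ∧ H.support.ncard ≤ 2 ^ 18)
    (s : Finset (Sym2 (Fin n)) → SimpleGraph (Fin n) → Sym2 (Fin n))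
    (hs : ∀ (Q : Finset (Sym2 (Fin n))) (G H : SimpleGraph (Fin n)),
      (∀ e ∈ Q, (e ∈ G.edgeSet ↔ e ∈ H.edgeSet)) → s Q G = s Q H) :
    ∃ G H : SimpleGraph (Fin n),
      (∀ e ∈ (fun Q : Finset (Sym2 (Fin n)) => insert (s Q G) Q)^[n.choose 2 - 1]
            (∅ : Finset (Sym2 (Fin n))),
          (e ∈ G.edgeSet ↔ e ∈ H.edgeSet)) ∧ P G ∧ ¬ P H := by
  classical
  by_contra hbad
  have hn2 : 2 ≤ n := by
    have h2 := big n hn
    have h3 : (2 : ℕ) ^ 100 = 1267650600228229401496703205376 := by norm_num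
    obtain ⟨B, hB⟩ : ∃ B : ℕ, B = 2 ^ 29000 := ⟨_, rfl⟩
    rw [← hB, h3] at h2
    omega
  have hNE := ne_of_strategy n hn2 P s hs hbad
  have hbot : ¬ P ⊥ := by
    intro h
    obtain ⟨G, hG⟩ := h0
    exact hG (hmono ⊥ G bot_le h)
  let 𝓕 : Pool.Agent.TH410.KV.Fam := {F | F.1 ≤ 2 ^ 18 ∧ ∃ f : Fin F.1 ↪ Fin n, P (F.2.map f)}
  have hHas : ∀ G : SimpleGraph (Fin n), Has 𝓕 G ↔ P G := by
    intro G
    constructor
    · rintro ⟨F, ⟨hF, f, hPf⟩, ⟨g⟩⟩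
      have hg : Function.Injective g := g.injective
      let g' : Fin F.1 ↪ Fin n := ⟨g, hg⟩
      obtain ⟨σ, hσ⟩ : ∃ σ : Equiv.Perm (Fin n), ∀ x, σ (f x) = g' x := by
        obtain ⟨σ, hσ⟩ := (Equiv.Perm.isMultiplyPretransitive (Fin n) F.1).exists_smul_eq f g'
        refine ⟨σ, fun x => ?_⟩
        rw [← hσ]
        rfl
      have h2 : (F.2.map f).map σ.toEmbedding = F.2.map g' := by
        rw [SimpleGraph.map_map]
        congr 1
        ext x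
        exact congrArg Fin.val (hσ x)
      have h3 : P (F.2.map g') := by
        rw [← h2]
        exact hiso σ _ hPf
      refine hmono _ G ?_ h3
      rw [SimpleGraph.map_le_iff_le_comap]
      intro x y hxy
      exact g.toHom.map_adj hxy
    · intro hG
      obtain ⟨H, hHG, hPH, hcard⟩ := hsmall G hG
      have hfin : Finite H.support := inferInstance
      let k := H.support.ncard
      have hk : Nat.card H.support = k := rfl
      let e : Fin k ≃ H.support := (Finite.equivFinOfCardEq hk).symm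
      let f : Fin k ↪ Fin n := e.toEmbedding.trans (Function.Embedding.subtype _)
      have h2 : (H.comap f).map f = H := by
        ext x y
        rw [SimpleGraph.map_adj]
        constructor
        · rintro ⟨u, v, h, rfl, rfl⟩
          exact h
        · intro h
          have hx : x ∈ H.support := ⟨y, h⟩
          have hy : y ∈ H.support := ⟨x, h.symm⟩
          have e1 : f (e.symm ⟨x, hx⟩) = x := by simp [f]
          have e2 : f (e.symm ⟨y, hy⟩) = y := by simp [f]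
          refine ⟨e.symm ⟨x, hx⟩, e.symm ⟨y, hy⟩, ?_, e1, e2⟩
          rw [SimpleGraph.comap_adj, e1, e2]
          exact h
      refine ⟨⟨k, H.comap f⟩, ⟨hcard, f, ?_⟩, ?_⟩
      · rw [h2]
        exact hPH
      · refine ⟨⟨⟨f, ?_⟩, f.injective⟩⟩
        intro x y hxy
        exact hHG hxy
  refine main_fam hn 𝓕 (fun H => H.2.1) ?_ ?_ ?_
  · obtain ⟨G, hG⟩ := h1
    obtain ⟨F, hF, -⟩ := (hHas G).2 hG
    exact ⟨F, hF⟩
  · rintro ⟨F, hF, f, hPf⟩ ⟨C⟩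
    apply hbot
    have h2 : F.2.map f = ⊥ := by
      ext x y
      rw [SimpleGraph.map_adj]
      constructor
      · rintro ⟨u, v, h, -, -⟩
        exact (C.valid h (Subsingleton.elim _ _)).elim
      · intro h
        exact h.elim
    rw [← h2]
    exact hPf
  · have h2 : (fun S : Finset (EV (Fin n)) => ¬ Has 𝓕 (toG S)) = fun S => ¬ P (toG S) := by
      funext S
      rw [hHas]
    rw [h2]
    exact hNE

end Run7.h972.Small
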