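import Mathlib

set_option autoImplicit false

/-!
# Primes of the form `2 * 3 ^ k + 1`: a kernel friendly test

MP_257582_lc: helper file for `SmallSubgraphs`.
-/

namespace Run7.h972.Small

/-- cube modulo `N` -/
def cb (N x : ℕ) : ℕ := x * x % N * x % N

/-- `2 ^ k` cubes modulo `N`; the test forces the kernel to evaluate the intermediate result -/
def it (N : ℕ) : ℕ → ℕ → ℕ
  | 0, x => cb N x
  | k + 1, x => (fun y => bif Nat.beq y 0 then it N k y else it N k y) (it N k x)

/-- `n` cubes modulo `N`, `n < 2 ^ f`, times `2 ^ i` -/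
def run (N : ℕ) : ℕ → ℕ → ℕ → ℕ → ℕ
  | 0, _, _, x => x
  | f + 1, i, n, x =>
      bif Nat.beq (n % 2) 1 then
        (fun y => bif Nat.beq y 0 then run N f (i + 1) (n / 2) y else run N f (i + 1) (n / 2) y)
          (it N i x)
      else run N f (i + 1) (n / 2) x

theorem cb_cast (N x : ℕ) : ((cb N x : ℕ) : ZMod N) = (x : ZMod N) ^ 3 := by
  unfold cb
  rw [ZMod.natCast_mod]
  push_cast
  rw [ZMod.natCast_mod]
  push_cast
  ring

theorem it_cast (N k : ℕ) : ∀ x : ℕ, ((it N k x : ℕ) : ZMod N) = (x : ZMod N) ^ (3 ^ (2 ^ k)) := by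
  induction k with
  | zero =>
    intro x
    rw [it, cb_cast, pow_zero, pow_one]
  | succ k ih =>
    intro x
    have h : it N (k + 1) x = it N k (it N k x) := by
      rw [it]
      beta_reduce
      cases Nat.beq (it N k x) 0 <;> rfl
    rw [h, ih, ih, ← pow_mul, ← pow_add, ← two_mul, ← pow_succ']

theorem run_cast (N f : ℕ) : ∀ i n x : ℕ, n < 2 ^ f →
    ((run N f i n x : ℕ) : ZMod N) = (x : ZMod N) ^ (3 ^ (2 ^ i * n)) := by
  induction f with
  | zero =>
    intro i n x hn
    have : n = 0 := by simpa using hn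
    subst this
    simp [run]
  | succ f ih =>
    intro i n x hn
    have hn2 : n / 2 < 2 ^ f := by
      rw [pow_succ] at hn
      omega
    rw [run]
    cases h : Nat.beq (n % 2) 1 with
    | true =>
      have h1 : n % 2 = 1 := Nat.eq_of_beq_eq_true h
      have h2 : ∀ y : ℕ, (bif Nat.beq y 0 then run N f (i + 1) (n / 2) y
          else run N f (i + 1) (n / 2) y) = run N f (i + 1) (n / 2) y := by
        intro y
        cases Nat.beq y 0 <;> rfl
      simp only [cond_true]
      rw [h2, ih _ _ _ hn2, it_cast, ← pow_mul, ← pow_add]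
      congr 2
      rw [pow_succ]
      have h3 : n = 2 * (n / 2) + 1 := by omega
      conv_rhs => rw [h3]
      ring
    | false =>
      have h1 : n % 2 ≠ 1 := Nat.ne_of_beq_eq_false h
      simp only [cond_false]
      rw [ih _ _ _ hn2]
      congr 2
      rw [pow_succ]
      have h3 : n = 2 * (n / 2) := by omega
      conv_rhs => rw [h3]
      ring

/-- the test with the base `a` -/
def chk (N f k a : ℕ) : Bool :=
  (fun y => !(Nat.beq (y * y % N) 1) && Nat.beq (y * y % N * y % N) (N - 1)) (run N f 0 k a)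

theorem prime_of_chk (k f a : ℕ) (hf : k < 2 ^ f) (h : chk (2 * 3 ^ (k + 1) + 1) f k a = true) :
    (2 * 3 ^ (k + 1) + 1).Prime := by
  set N := 2 * 3 ^ (k + 1) + 1 with hN
  have h3 : 3 ≤ 3 ^ (k + 1) := by
    calc 3 = 3 ^ 1 := (pow_one 3).symm
      _ ≤ 3 ^ (k + 1) := Nat.pow_le_pow_right (by norm_num) (by omega)
  have hN1 : 1 < N := by omega
  have hN2 : Fact (2 < N) := ⟨by omega⟩
  unfold chk at h
  simp only [Bool.and_eq_true, Bool.not_eq_true'] at h
  obtain ⟨h1, h2⟩ := h
  have hy := run_cast N f 0 k a hf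
  rw [pow_zero, one_mul] at hy
  set y := run N f 0 k a with hyd
  have e1 : (a : ZMod N) ^ (3 ^ (k + 1)) = -1 := by
    have h4 : y * y % N * y % N = N - 1 := Nat.eq_of_beq_eq_true h2
    have h5 : ((y * y % N * y % N : ℕ) : ZMod N) = (y : ZMod N) ^ 3 := cb_cast N y
    rw [h4, hy, ← pow_mul, ← pow_succ, Nat.cast_sub hN1.le] at h5
    rw [← h5]
    simp
  have e2 : (a : ZMod N) ^ (2 * 3 ^ k) ≠ 1 := by
    intro h6
    have h7 : y * y % N ≠ 1 := Nat.ne_of_beq_eq_false h1
    apply h7
    have h8 : ((y * y % N : ℕ) : ZMod N) = ((1 : ℕ) : ZMod N) := by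
      rw [ZMod.natCast_mod, Nat.cast_one, ← h6, pow_mul', ← hy]
      push_cast
      ring
    rw [ZMod.natCast_eq_natCast_iff', Nat.mod_mod, Nat.mod_eq_of_lt hN1] at h8
    exact h8
  have hN' : N - 1 = 2 * 3 ^ (k + 1) := by omega
  refine lucas_primality N (a : ZMod N) ?_ ?_
  · rw [hN', mul_comm, pow_mul, e1]
    norm_num
  · intro q hq hqd
    rw [hN'] at hqd
    have hq23 : q = 2 ∨ q = 3 := by
      rcases (Nat.Prime.dvd_mul hq).1 hqd with h9 | h9
      · exact Or.inl ((Nat.prime_dvd_prime_iff_eq hq Nat.prime_two).1 h9)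
      · exact Or.inr ((Nat.prime_dvd_prime_iff_eq hq Nat.prime_three).1
          (hq.dvd_of_dvd_pow h9))
    rw [hN']
    rcases hq23 with rfl | rfl
    · rw [Nat.mul_div_cancel_left _ (by norm_num), e1]
      exact ZMod.neg_one_ne_one
    · have h10 : 2 * 3 ^ (k + 1) / 3 = 2 * 3 ^ k := by
        rw [pow_succ, ← mul_assoc, Nat.mul_div_cancel _ (by norm_num)]
      rw [h10]
      exact e2

end Run7.h972.Small
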